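import Pool.Agent.Run7.h16.MA.Elem3
import Pool.Agent.TH117.PO.Full

/-!
# The numerical Hodge standard conjecture for abelian varieties over finite fields with CM fields
abelian over the rational numbers

Over an algebraic closure of the field with `p` elements each abelian variety is isogenous to the
reduction of an abelian variety of CM type (Honda, Tate). So an abelian variety over the field with
`p ^ a` elements is modelled by `RedAV`: a finite product of CM types `(E i, Φ i)` with Weil numbers
`π i ∈ E i` that satisfy the formula of Shimura and Taniyama; its cohomology of degree `n`, with
coefficients in an algebraically closed field `Ω`, consists of the alternating `n`-forms on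
`Ω ⊗ H_1`, on which the Frobenius endomorphism acts by `π`.

Let `Z` be such an abelian variety, the product of simple factors `A i` of dimension `g i`, whose CM
fields `E i` are abelian over `ℚ`, such that (`HasAbelianFields`):

* if `g i ≥ 4` and `i' ≠ i`, the fields `E i` and `E i'` have only totally real common subfields (there
  is no condition on two factors of dimension at most three);
* if `g i ≥ 6`, the powers of `π i` generate `E i`, and no positive power of the norm of `π i` to a
  subfield `T` of `E i`, cyclic over `ℚ` and not totally real, is a product of elements of proper
  subfields of `T`; if `g i = 6` one exception `T` is allowed, an imaginary quadratic field in which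
  `p` splits (there is no condition on the norms of `π i` if `g i ≤ 5`).

Let `Y` be any abelian variety over a finite field that is isogenous, over an algebraic closure, to a
product of powers of the factors of `Z` and of a supersingular abelian variety of any dimension
(`IsPowersTimesSupersingular`). **Then the Hodge standard conjecture holds for `Y`, all polarizations
and all codimensions `r`, `dim Y = 2 r + m`: a class `z` in `H^{2 r}(Y)` of an algebraic cycle which is
primitive and not zero has `(-1)^r z ∪ z ∪ E^m > 0`** (`HodgeTypeFor`). There may be exotic classes on
`Y`, in many codimensions, which are not combinations of products of divisor classes (in particular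
on the powers of the factors of dimension four and six, and their products).

The space of the classes of algebraic cycles of degree `card κ` on `Y`, with rational coefficients, is
`C Y κ`. The properties of these spaces that are used are known theorems: they are closed under sums,
cup products, pull-backs and push-forwards, they contain the Hodge classes of degree two of the
liftings (Lefschetz) and the split Weil classes of degree four and six (Markman), and the Tate classes
of degree two are combinations of such classes (Tate) (`IsCycleSystem`); the positivity of the Rosati
involution (Weil, `IsRosatiPositive`); classes of cycles are Tate classes over finite extensions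
(`AreTate`). For the abelian varieties `Y` all Tate classes are algebraic, and the pairings between the
spaces of Tate classes are nondegenerate, so that homological and numerical equivalence agree, and
the conclusion is the positivity of the form on the primitive cycles modulo numerical equivalence.
The polarizations are those compatible with the complex multiplications of the lifting (`IsPolar`,
with the Riemann form `∑ i, Tr (α i * conj (x i) * y i)`); by theorems of Honda, Tate and Zink each
polarized abelian variety over an algebraic closure of a finite field is isogenous to the reduction of
such a polarized abelian variety. That the positivity follows if the relations between the Frobenius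
eigenvalues are generated by elementary ones was formalized by helper117 (MP_c0b458_ag, starting
results); that this is true under the conditions above is the new part.

The proof of the new part. Let `i` be a factor with `g i ≥ 4`. Since the common subfields are totally
real, for each `i' ≠ i` an automorphism is trivial on `E i` and the complex conjugation on `E i'`; so
the part of a relation that belongs to `E i` is a relation. If `g i ≥ 6`, let `c` be the antisymmetric
part of its exponents, a function on the Galois group `A` of `E i`. For each odd character `θ` of `A`
the product of the Fourier coefficients at `θ` and its inverse of `c` and of the slopes of `π i` is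
zero. The second one vanishes only if a power of the norm of `π i` to the fixed field of the kernel of
`θ` is a product of elements of proper subfields. So `c = 0`, or `c` is a multiple of the quadratic
character of the exceptional field `T`, a multiple of a Weil relation.
-/

set_option autoImplicit false

namespace Pool.Agent.Results.MP_c0b458_ag.AbelianFields

open NumberField Module Pool.Agent.W495.TA Pool.Agent.W547.KB Pool.Agent.TH117.PO
  Pool.Agent.TH117.BL Run7.h16.MA

/-- The standard conjecture of Hodge type for the abelian variety `Y`: for each primitive class
`z ≠ 0` in `H^{2 r}(Y)` of an algebraic cycle, `(-1)^r z ∪ z ∪ E^m > 0`, where `E` is the class of the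
polarization given by `α`, and `dim Y = 2 r + m`. -/
def HodgeTypeFor {p : ℕ} [Fact p.Prime] {ν : PadicAlgCl p ≃+* ℂ} (Y : RedAV p ν) : Prop :=
  ∀ (Ω : Type) [Field Ω] [CharZero Ω] [IsAlgClosed Ω]
    (C : (Y : RedAV p ν) → (κ : Type) → ((TM Ω Y) [⋀^κ]→ₗ[Ω] Ω) → Prop), IsCycleSystem Ω C →
    IsRosatiPositive Ω C → AreTate Ω C →
      ∀ α : Y.X.H1, IsPolar Y.X α → ∀ r m : ℕ, 2 * (2 * r + m) = finrank ℚ Y.X.H1 →
        ∀ z : (TM Ω Y) [⋀^Fin r × Fin 2]→ₗ[Ω] Ω, C Y (Fin r × Fin 2) z → z ≠ 0 →
          IsPrim α m z → IsPosClass α m z

/-- **The Hodge standard conjecture for abelian varieties over finite fields with CM fields abelian
over the rational numbers.** -/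
theorem result (p : ℕ) [Fact p.Prime] (ν : PadicAlgCl p ≃+* ℂ) (Z : RedAV p ν)
    (hZ : HasAbelianFields Z) (Y : RedAV p ν) (hY : IsPowersTimesSupersingular Z Y) :
    HodgeTypeFor Y :=
  fun _ _ _ _ _ hC hR hT _ hα _ _ hrm _ hz hz0 hprim =>
    positive_full hC hR hT (Or.inr ⟨Z, elementary_of_abelian hZ, hY⟩) hα hrm hz hz0 hprim

end Pool.Agent.Results.MP_c0b458_ag.AbelianFields
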