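import Pool.Agent.Run7.h384.HG.Fin

/-!
# The standard conjecture of Hodge type: one codimension of a product

Let `W` be a Weil cohomology. All statements hold for cycles modulo homological equivalence and
for cycles modulo numerical equivalence, for instance for abelian varieties over any field. The
Lefschetz theorems and the Lefschetz standard conjecture are not used. A polarized variety
`(X, D)` is a variety with a divisor such that `D ^ dim X > 0`; products carry the sums of the
divisors. For `2 j ≤ dim X` let `pos_j(X)` and `neg_j(X)` be the numbers of positive and of negative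
squares of the form `⟨z, w⟩ = (-1) ^ j z · w · D ^ (dim X - 2 j)` on the primitive algebraic
classes of codimension `j`; the conjecture `Hdg_j(X)` says that it is positive definite.

1. (Products.) Let `X₁, …, X_t` be polarized of dimensions `n₁, …, n_t`, `N = n₁ + ⋯ + n_t`, and `Z`
   of dimension `d` with a divisor. Let `2 j ≤ d`, `j ≤ q ≤ j + N`, `2 q ≤ d + N` and
   `q + j + n_i ≤ d + N` for all `i`. Then `Hdg_q(X₁ × ⋯ × X_t × Z)` implies `Hdg_j(Z)`, and
   `pos_j(Z) ≤ pos_q(X₁ × ⋯ × X_t × Z)`, `neg_j(Z) ≤ neg_q(X₁ × ⋯ × X_t × Z)`.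
2. (Powers.) Let `X` be polarized of dimension `n`, `1 ≤ a`, `a + 2 ≤ b`, `2 j ≤ n a`, `2 q ≤ n b` and
   `j ≤ q ≤ j + n (b - a)`. Then `Hdg_q(X ^ b)` implies `Hdg_j(X ^ a)`. In other words: if the
   conjecture fails for `X ^ a` in the codimension `j`, it fails for all `X ^ b`, `b ≥ a + 2`, in all
   codimensions `q` from `j` up to the smaller of `n b / 2` and `j + n (b - a)`. For instance
   `Hdg_(2 n)(X ^ 4)`, i.e. `z · z > 0` for all algebraic classes `z ≠ 0` of codimension `2 n` on
   `X ^ 4` with `D · z = 0`, implies the conjecture for `X` and for `X × X` in all codimensions.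
3. (One codimension of infinitely many powers.) Let `S` be any set of pairs `(b, q)`, `2 q ≤ n b`,
   in which `b` and `q` are unbounded together. The conjecture for all powers of `X` and all
   codimensions is equivalent to `Hdg_q(X ^ b)` for the `(b, q)` in `S`.
4. (Superadditivity.) `pos_q(X × Z) ≥ ∑ pos_(q - c)(Z)`, the sum over all `0 ≤ c ≤ min(n, q)` with
   `c + 2 (q - c) ≤ d`, and likewise for `neg`.
5. (Multiplicities.) `pos_q(X ^ t × Z) ≥ m · pos_j(Z)` and `neg_q(X ^ t × Z) ≥ m · neg_j(Z)`, where `m`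
   is the multiplicity of the irreducible representation of `sl₂` of highest weight `d + n t - 2 q`
   in `V_(d - 2 j) ⊗ V_n ^ (⊗ t)` (it grows exponentially with `t` if `q` stays near the middle).

The proof. For a primitive class `z` of codimension `j` on `Z`, `m = d - 2 j`, and `c ≤ min(n, m)` put
`w = ∑_(a ≤ c) (-1) ^ a C(c, a) (n - a)! (m - c + a)! D_X ^ a ⊠ D_Z ^ (c - a) z`. By a finite
difference identity `D ^ (n + m - 2 c) w` is, modulo negligible classes, `(-1) ^ c c! (n + m - 2 c)!`
times `∑_b (-1) ^ b D_X ^ (n - b) ⊠ D_Z ^ (m - c + b) z`, which is killed by `D`. So `w` is primitive,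
and `⟨w, w⟩` is a positive multiple of `⟨z, z⟩`; the classes obtained from different `c` are
orthogonal. The push-forward of `D_X ^ (n - c) w` to `Z` is a nonzero multiple of `z`, so that
`w ≠ 0` if `z ≠ 0`. Finally one chooses the `c` for the factors.
-/

set_option autoImplicit false

open CategoryTheory AlgebraicGeometry

universe u v

namespace Pool.Agent.Results.MP_c0b458_ag.OneCodimensionOfPowers

open Pool.Agent.H914 Pool.Agent.H914.VarClass Pool.Agent.H914.VarClass.Obj
open Pool.Agent.H281R3.HT (Polarized)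
open Pool.Agent.W539.Ker (HasFamily)
open Pool.Agent.Run7.h174.PI (HasSquares HodgeTypeNum)
open Pool.Agent.Run7.h384.HG

/-- **The standard conjecture of Hodge type: one codimension of a product.** -/
theorem result {k : Type u} [Field k] {𝒱 : VarClass k} {ops : CycleOps 𝒱}
    (W : WeilCohomology.{u, v} ops) :
    (∀ (l : List (Polarized 𝒱)) (Q : Polarized 𝒱), (∀ P ∈ l, Positive ops P) →
      Q.X.IsCyc 1 Q.D → ∀ j q, 2 * j ≤ Q.X.dim → j ≤ q → q ≤ j + dims l →
      2 * q ≤ Q.X.dim + dims l → (∀ P ∈ l, q + j + P.X.dim ≤ Q.X.dim + dims l) →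
        Descends W (prodL ops l Q) q Q j) ∧
    ∀ P : Polarized 𝒱, Positive ops P →
      (∀ s t j q, 2 ≤ t → 2 * j ≤ (s + 1) * P.X.dim → j ≤ q → q ≤ j + t * P.X.dim →
        2 * q ≤ (s + t + 1) * P.X.dim → Descends W (power ops P (s + t)) q (power ops P s) j) ∧
      (∀ S : Set (ℕ × ℕ), (∀ x ∈ S, 2 * x.2 ≤ (x.1 + 1) * P.X.dim) →
        (∀ N, ∃ x ∈ S, N ≤ x.1 ∧ N ≤ x.2) →
        ((∀ x ∈ S, HodgeTypeIn W (power ops P x.1).X (power ops P x.1).D x.2) ↔
          ∀ r, HodgeType W (power ops P r).X (power ops P r).D) ∧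
        ((∀ x ∈ S, HodgeTypeNum ops (power ops P x.1).X (power ops P x.1).D x.2) ↔
          ∀ r j, 2 * j ≤ (power ops P r).X.dim →
            HodgeTypeNum ops (power ops P r).X (power ops P r).D j)) ∧
      ∀ (Q : Polarized 𝒱), Q.X.IsCyc 1 Q.D → ∀ s : ℚ,
        (∀ q, 2 * q ≤ P.X.dim + Q.X.dim → ∀ r : ℕ → ℕ,
          ((∀ c ≤ min P.X.dim q, c + 2 * (q - c) ≤ Q.X.dim →
              HasFamily W Q.X Q.D (q - c) s (r c)) →
            HasFamily W (P.prod ops Q).X (P.prod ops Q).D q s
              (∑ c ∈ (Finset.range (min P.X.dim q + 1)).filter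
                (fun c => c + 2 * (q - c) ≤ Q.X.dim), r c)) ∧
          ((∀ c ≤ min P.X.dim q, c + 2 * (q - c) ≤ Q.X.dim →
              HasSquares ops Q.X Q.D (q - c) s (r c)) →
            HasSquares ops (P.prod ops Q).X (P.prod ops Q).D q s
              (∑ c ∈ (Finset.range (min P.X.dim q + 1)).filter
                (fun c => c + 2 * (q - c) ≤ Q.X.dim), r c))) ∧
        ∀ j r t q, 2 * j ≤ Q.X.dim → 2 * q ≤ Q.X.dim + t * P.X.dim →
          (HasFamily W Q.X Q.D j s r →
            HasFamily W (prodL ops (List.replicate t P) Q).X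
              (prodL ops (List.replicate t P) Q).D q s (ways P.X.dim Q.X.dim j t q * r)) ∧
          (HasSquares ops Q.X Q.D j s r →
            HasSquares ops (prodL ops (List.replicate t P) Q).X
              (prodL ops (List.replicate t P) Q).D q s (ways P.X.dim Q.X.dim j t q * r)) :=
  ⟨fun _ _ hl hQ _ _ h0 h1 h3 h2 h4 => descends_list hl hQ h0 h1 h2 h3 h4, fun _ hP =>
    ⟨fun _ _ _ _ ht hj h1 h3 h2 => descends_power hP ht hj h1 h2 h3,
      fun _ hS hS' => hodge_iff hP hS hS', fun _ hQ s =>
        ⟨fun _ hq r => family_prod hP hQ hq s r,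
          fun _ _ _ _ hj hq => family_ways hP hQ hj hq⟩⟩⟩

end Pool.Agent.Results.MP_c0b458_ag.OneCodimensionOfPowers
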