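import Pool.Agent.Run7.h174.PiM

/-!
# The standard conjecture of Hodge type does not depend on the polarization

Let `A` be an abelian variety of dimension `d` over an arbitrary field and `D` an ample divisor.
The numerical standard conjecture of Hodge type says that the form
`⟨z, w⟩ = (-1) ^ n deg (z · D ^ (d - 2 n) · w)` is positive definite on the cycles of codimension
`n ≤ d / 2` modulo numerical equivalence which are primitive for `D`.

**Theorem.** Let `A'` be isogenous to `A`, and `D'` an ample divisor on `A'`. For each `n ≤ d / 2`
the form for `(A, D)` on the primitive cycles of codimension `n` has as many positive and as many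
negative squares as the form for `(A', D')`. In particular the conjecture holds for `(A, D)` in the
codimension `n` if and only if it does for `(A', D')`. The case `A' = A` is the independence of the
polarization.

No standard conjecture is assumed. The varieties `A` and `A'` enter only through a Weil cohomology
with algebraically closed coefficients for which their cohomology is that of an abelian variety; in
place of ampleness we only assume that the intersection numbers `D ^ i · D'' ^ (d - i)` are
positive, where `D''` is the pull-back of `D'` to `A`.

**The proof.** Let `e` and `e'` be the classes of `D` and `D''`, and `s = φ_{e'} φ_e⁻¹` the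
corresponding operator on `H ^ 1(A)`. It is algebraic, and symmetric for `e`. The intersection
numbers `D ^ i · D'' ^ (d - i)` are the coefficients of its characteristic polynomial (a Pfaffian),
so `s` has no negative or zero eigenvalue in the real numbers, and it has a square root in
`ℝ[s]`. It is approximated by polynomials `F(s)` with rational coefficients for which
`F(s) ^ 2 = P(s)`, where `P` tends to `X` (the polynomials are chosen so that this holds modulo a
power of the characteristic polynomial). The exterior power `Ψ` of `F(s)` is an endomorphism of the
algebra `H(A)` and preserves the algebraic classes (it is an algebraic correspondence). It carries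
`e` to the class `C` of a divisor which is close to `D''`, and so it carries the form on the cycles
of codimension `n` for `D` to a positive multiple of the form for `C`. Hence the indices for `C` are
at least those for `D`. For `C` close to `D''` they are at least those of `D''`. As the forms for
`D` and `D''` are nondegenerate modulo numerical equivalence (the Lefschetz standard conjecture,
which is proved here for these cohomologies by the contraction with `e ^ (d - 1)`), the ranks agree,
and all the inequalities are equalities. Finally the primitive part is handled by the Lefschetz
decomposition.
-/

set_option autoImplicit false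

open CategoryTheory AlgebraicGeometry

universe u v

namespace Pool.Agent.Results.MP_c0b458_ag.PolarizationIndependence

open Pool.Agent.H914 Pool.Agent.H914.VarClass Pool.Agent.H914.VarClass.Obj Pool.Agent.R908
  Pool.Agent.Run7.h174.PI

/-- **The numerical standard conjecture of Hodge type for abelian varieties does not depend on the
polarization, and is invariant under isogenies, in each codimension.** Let `W` be a Weil cohomology
with algebraically closed coefficients for which the cohomologies of `A` and `A'` are those of
abelian varieties with the additions `m` and `m'`, let `f : A ⟶ A'` and `g : A' ⟶ A` be isogenies
whose composites are multiplications by `N`, and `D`, `D'` divisors on `A`, `A'` with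
`deg (D' ^ d) > 0` and `deg (D ^ i · (f^* D') ^ (d - i)) > 0` for `i ≤ d`, where `d = dim A` (for
example ample divisors). Let `n ≤ d / 2`. Then the forms `(-1) ^ n deg (z · D ^ (d - 2 n) · w)` on
the numerically primitive cycles of codimension `n` have the same number of positive squares, and
the same number of negative squares, for `(A, D)` and for `(A', D')`. In particular the numerical
standard conjecture of Hodge type in the codimension `n` holds for `(A, D)` if and only if it holds
for `(A', D')`. -/
theorem result {k : Type u} [Field k] {𝒱 : VarClass k} {ops : CycleOps 𝒱}
    (W : WeilCohomology.{u, v} ops) [IsAlgClosed W.K] {A A' : 𝒱.Obj} {m : A.prod A ⟶ A}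
    {m' : A'.prod A' ⟶ A'} (hA : IsAbelianLike W A m) (hA' : IsAbelianLike W A' m')
    {f : A ⟶ A'} {g : A' ⟶ A} {N : ℕ} (hI : IsIsog W f g N)
    {D : A.Cycles} {D' : A'.Cycles} (hD : A.IsCyc 1 D) (hD' : A'.IsCyc 1 D')
    (hdeg : 0 < mixed ops A' D' D' 0)
    (hmix : ∀ i ≤ A.dim, 0 < mixed ops A D (ops.pull f D') i) {n : ℕ} (hn : 2 * n ≤ A.dim) :
    (∀ s : ℚ, s = 1 ∨ s = -1 → ∀ r,
      (HasSquares ops A D n s r ↔ HasSquares ops A' D' n s r)) ∧
      (HodgeTypeNum ops A D n ↔ HodgeTypeNum ops A' D' n) :=
  main_isog hA hA' hI hD hD' hdeg hmix hn

end Pool.Agent.Results.MP_c0b458_ag.PolarizationIndependence
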